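import Pool.Agent.Y797.TW.Def
import Pool.Agent.TH826.MH.Ring
set_option autoImplicit false

/-!
The coordinate rings are domains.
-/

namespace Pool.Agent.Y797.TW

open MvPolynomial

section sub

variable {K : Type*} [Field K] {ι : Type*} [DecidableEq ι]

/-- substitution of a constant for one variable -/
noncomputable def sb (l : ι) (c : K) : MvPolynomial ι K →ₐ[K] MvPolynomial ι K :=
  bind₁ (Function.update X l (C c))

theorem sb_C (l : ι) (c a : K) : sb l c (C a) = C a := by
  unfold sb
  rw [MvPolynomial.bind₁_C_right]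

theorem sb_X (l : ι) (c : K) : sb l c (X l) = C c := by
  unfold sb
  rw [MvPolynomial.bind₁_X_right, Function.update_self]

theorem sb_X_ne {l i : ι} (h : i ≠ l) (c : K) : sb l c (X i) = X i := by
  unfold sb
  rw [MvPolynomial.bind₁_X_right, Function.update_of_ne h]

theorem dvd_sub_sb (l : ι) (c : K) (p : MvPolynomial ι K) : (X l - C c) ∣ p - sb l c p := by
  induction p using MvPolynomial.induction_on with
  | C a =>
    rw [sb_C, sub_self]
    exact dvd_zero _
  | add p q hp hq =>
    rw [map_add, add_sub_add_comm]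
    exact dvd_add hp hq
  | mul_X p i hp =>
    rw [map_mul]
    have h1 : p * X i - sb l c p * sb l c (X i) = (p - sb l c p) * X i +
        sb l c p * (X i - sb l c (X i)) := by ring
    rw [h1]
    refine dvd_add (hp.mul_right _) (Dvd.dvd.mul_left ?_ _)
    by_cases h : i = l
    · subst h
      rw [sb_X]
    · rw [sb_X_ne h, sub_self]
      exact dvd_zero _

theorem eval_sb (l : ι) (c : K) (y : ι → K) (p : MvPolynomial ι K) :
    MvPolynomial.eval y (sb l c p) = MvPolynomial.eval (Function.update y l c) p := by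
  induction p using MvPolynomial.induction_on with
  | C a => rw [sb_C, MvPolynomial.eval_C, MvPolynomial.eval_C]
  | add p q hp hq => rw [map_add, map_add, map_add, hp, hq]
  | mul_X p i hp =>
    rw [map_mul, map_mul, map_mul, hp]
    congr 1
    by_cases h : i = l
    · subst h
      rw [sb_X, MvPolynomial.eval_C, MvPolynomial.eval_X, Function.update_self]
    · rw [sb_X_ne h, MvPolynomial.eval_X, MvPolynomial.eval_X, Function.update_of_ne h]

end sub

section main

variable {K : Type*} [Field K] [Infinite K] {m : ℕ}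

omit [Infinite K] in
theorem finSucc_rename (q : MvPolynomial (Fin (m + 1)) K) :
    MvPolynomial.finSuccEquiv K (m + 1) (rename Fin.succ q) = Polynomial.C q := by
  induction q using MvPolynomial.induction_on with
  | C a =>
    rw [MvPolynomial.rename_C, MvPolynomial.finSuccEquiv_apply]
    simp
  | add p q hp hq => rw [map_add, map_add, hp, hq, Polynomial.C_add]
  | mul_X p i hp =>
    rw [map_mul, map_mul, hp, MvPolynomial.rename_X, MvPolynomial.finSuccEquiv_X_succ,
      Polynomial.C_mul]

omit [Infinite K] in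
theorem exists_rename {p : MvPolynomial (Fin (m + 1 + 1)) K} (h : ∀ l ∈ p.vars, l ≠ 0) :
    ∃ q : MvPolynomial (Fin (m + 1)) K, rename Fin.succ q = p := by
  refine MvPolynomial.exists_rename_eq_of_vars_subset_range p Fin.succ
    (Fin.succ_injective _) fun l hl => ?_
  obtain ⟨i, hi⟩ := Fin.exists_succ_eq.2 (h l hl)
  exact ⟨i, hi⟩

theorem irreducible_eqn (A : Tower K (m + 1)) (hG : A.Graphs) {lam : K} (hl : lam ≠ 0)
    (hg : (0 : Fin (m + 1 + 1)) ∉ A.g.vars) {i0 : Fin (A.r (Fin.last (m + 1)) + 1)}
    (hi0 : ¬ A.fac (Fin.last (m + 1)) i0 ∣ A.g) : Irreducible (A.eqn lam) := by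
  classical
  obtain ⟨hv, hinj, hg0⟩ := hG
  have hphi0 : ∀ j i, ∀ l ∈ (A.phi j i).vars, l ≠ 0 := by
    intro j i l hl e
    have h1 := hv j i l hl
    rw [e] at h1
    exact Fin.not_lt_zero j h1
  choose ph hph using fun j i => exists_rename (hphi0 j i)
  obtain ⟨g', hg'⟩ := exists_rename (p := A.g) fun l hl e => hg (e ▸ hl)
  have hrinj : Function.Injective (rename Fin.succ : MvPolynomial (Fin (m + 1)) K →
      MvPolynomial (Fin (m + 1 + 1)) K) := MvPolynomial.rename_injective _ (Fin.succ_injective _)
  have hphv : ∀ (j : Fin (m + 1)) i, ∀ l ∈ (ph j.succ i).vars, j < l := by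
    intro j i l hl
    have h1 : l.succ ∈ (A.phi j.succ i).vars := by
      rw [← hph]
      obtain ⟨d, hd, hld⟩ := (mem_vars l).1 hl
      refine (mem_vars _).2 ⟨Finsupp.mapDomain Fin.succ d, ?_, ?_⟩
      · rw [MvPolynomial.support_rename_of_injective (Fin.succ_injective _)]
        exact Finset.mem_image_of_mem _ hd
      · rw [Finsupp.mapDomain_support_of_injective (Fin.succ_injective _)]
        exact Finset.mem_image_of_mem _ hld
    exact Fin.succ_lt_succ_iff.1 (hv _ _ _ h1)
  have hphinj : ∀ j, Function.Injective (ph j) := by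
    intro j a b hab
    apply hinj j
    rw [← hph, ← hph, hab]
  -- the last level
  change Fin (A.r (Fin.last m).succ + 1) at i0
  change ¬ A.fac (Fin.last m).succ i0 ∣ A.g at hi0
  have hconst : ∀ i, ∃ c : K, ph (Fin.last m).succ i = C c := by
    intro i
    refine ⟨_, MvPolynomial.vars_eq_empty_iff_eq_C.1 ?_⟩
    refine Finset.eq_empty_iff_forall_notMem.2 fun l hl => ?_
    have h1 := hphv (Fin.last m) i l hl
    exact absurd (Fin.le_last l) (not_le.2 h1)
  choose c hc using hconst
  have hcinj : Function.Injective c := by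
    intro a b hab
    apply hphinj
    rw [hc, hc, hab]
  -- the coefficient
  set coe : MvPolynomial (Fin (m + 1)) K := C lam * (g' * ∏ j, ∏ i, (X j - ph j.succ i)) with hcoe
  set q' : MvPolynomial (Fin (m + 1)) K := C lam * (g' *
    ((∏ i ∈ Finset.univ.erase i0, (X (Fin.last m) - ph (Fin.last m).succ i)) *
      ∏ j ∈ Finset.univ.erase (Fin.last m), ∏ i, (X j - ph j.succ i))) with hq'
  have hsplit : coe = (X (Fin.last m) - C (c i0)) * q' := by
    rw [hcoe, hq', ← Finset.mul_prod_erase _ _ (Finset.mem_univ (Fin.last m)),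
      ← Finset.mul_prod_erase _ _ (Finset.mem_univ i0), hc i0]
    ring
  have heqn : MvPolynomial.finSuccEquiv K (m + 1) (A.eqn lam) =
      Polynomial.C coe * ∏ i, (Polynomial.X - Polynomial.C (ph 0 i)) - 1 := by
    unfold Tower.eqn Tower.prod
    rw [Fin.prod_univ_succ, hcoe, ← hg']
    unfold Tower.fac
    simp only [← hph, map_sub, map_mul, map_prod, map_one, MvPolynomial.finSuccEquiv_X_zero,
      MvPolynomial.finSuccEquiv_X_succ, finSucc_rename]
    have hC : ∀ c : K, MvPolynomial.finSuccEquiv K (m + 1) (MvPolynomial.C c) =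
        Polynomial.C (MvPolynomial.C c) := by
      intro c
      rw [MvPolynomial.finSuccEquiv_apply]
      simp
    simp only [hC]
    ring
  -- the substitution
  have hsub : sb (Fin.last m) (c i0) q' ≠ 0 := by
    rw [hq']
    simp only [map_mul, map_prod, sb_C]
    refine mul_ne_zero ?_ (mul_ne_zero ?_ (mul_ne_zero ?_ ?_))
    · intro h
      exact hl (MvPolynomial.C_injective _ _ (by rw [h, map_zero]))
    · intro h
      apply hi0
      have h1 := dvd_sub_sb (Fin.last m) (c i0) g'
      rw [h, sub_zero] at h1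
      have h2 := map_dvd (rename (R := K) Fin.succ) h1
      rw [hg', map_sub, MvPolynomial.rename_X, MvPolynomial.rename_C] at h2
      have h3 : A.fac (Fin.last m).succ i0 = X (Fin.last m).succ - C (c i0) := by
        unfold Tower.fac
        rw [← hph, hc, MvPolynomial.rename_C]
      rw [h3]
      exact h2
    · refine Finset.prod_ne_zero_iff.2 fun i hi => ?_
      rw [map_sub, sb_X, hc, sb_C, ← C_sub]
      intro h
      have h1 : c i0 - c i = 0 := MvPolynomial.C_injective _ _ (by rw [h, map_zero])
      exact Finset.ne_of_mem_erase hi (hcinj (sub_eq_zero.1 h1)).symm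
    · refine Finset.prod_ne_zero_iff.2 fun j hj => Finset.prod_ne_zero_iff.2 fun i _ => ?_
      have hjl := Finset.ne_of_mem_erase hj
      rw [map_sub, sb_X_ne hjl]
      intro h
      have h1 : j ∈ (sb (Fin.last m) (c i0) (ph j.succ i)).vars := by
        rw [← sub_eq_zero.1 h, MvPolynomial.vars_X]
        exact Finset.mem_singleton_self _
      obtain ⟨p, hp, hp2⟩ := MvPolynomial.mem_vars_bind₁ _ _ h1
      by_cases hpl : p = Fin.last m
      · rw [hpl, Function.update_self, MvPolynomial.vars_C] at hp2
        exact absurd hp2 (Finset.notMem_empty _)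
      · rw [Function.update_of_ne hpl, MvPolynomial.vars_X, Finset.mem_singleton] at hp2
        have h2 := hphv j i p hp
        rw [hp2] at h2
        exact lt_irrefl _ h2
  have hpt : ∃ y : Fin (m + 1) → K, MvPolynomial.eval y (sb (Fin.last m) (c i0) q') ≠ 0 := by
    by_contra hcon
    push Not at hcon
    refine hsub (MvPolynomial.funext fun y => ?_)
    rw [hcon y, map_zero]
  obtain ⟨y0, hy0⟩ := hpt
  rw [eval_sb] at hy0
  set y : Fin (m + 1) → K := Function.update y0 (Fin.last m) (c i0) with hy
  have hyl : y (Fin.last m) = c i0 := by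
    rw [hy, Function.update_self]
  have hqy : MvPolynomial.eval y coe = 0 := by
    rw [hsplit, map_mul, map_sub, MvPolynomial.eval_X, MvPolynomial.eval_C, hyl, sub_self,
      zero_mul]
  have hX : (X (Fin.last m) - C (c i0) : MvPolynomial (Fin (m + 1)) K) ≠ 0 := by
    intro h
    have h2 := congrArg (MvPolynomial.eval fun _ => c i0 + 1) h
    simp at h2
  have hq0 : coe ≠ 0 := by
    rw [hsplit]
    refine mul_ne_zero hX ?_
    rintro e
    rw [e, map_zero] at hy0
    exact hy0 rfl
  have hmon : (∏ i, (Polynomial.X - Polynomial.C (ph 0 i)) :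
      Polynomial (MvPolynomial (Fin (m + 1)) K)).Monic :=
    Polynomial.monic_prod_of_monic _ _ fun i _ => Polynomial.monic_X_sub_C _
  have hdeg : (∏ i, (Polynomial.X - Polynomial.C (ph 0 i)) :
      Polynomial (MvPolynomial (Fin (m + 1)) K)).natDegree = A.r 0 + 1 := by
    rw [Polynomial.natDegree_prod_of_monic _ _ fun i _ => Polynomial.monic_X_sub_C _]
    simp
  rw [← MulEquiv.irreducible_iff (MvPolynomial.finSuccEquiv K (m + 1)), heqn]
  refine Pool.Agent.TH826.MH.irr_sub_one (MvPolynomial.eval y) coe _ hmon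
    (by rw [hdeg]; omega) hqy hq0 ?_
  intro g h hg hh e
  have h2 := congrArg (fun p => MvPolynomial.eval y (MvPolynomial.pderiv (Fin.last m) p)) e
  rw [hsplit] at h2
  simp only [Derivation.leibniz, smul_eq_mul, map_add, map_mul, hg, hh, zero_mul, map_sub,
    MvPolynomial.pderiv_X_self, MvPolynomial.pderiv_C, sub_zero, mul_one, map_one,
    MvPolynomial.eval_X, MvPolynomial.eval_C, add_zero] at h2
  rw [hyl, sub_self, zero_mul, zero_add] at h2
  exact hy0 h2

theorem isDomain (A : Tower K (m + 1)) (hG : A.Graphs) {lam : K} (hl : lam ≠ 0)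
    (hg : (0 : Fin (m + 1 + 1)) ∉ A.g.vars) {i0 : Fin (A.r (Fin.last (m + 1)) + 1)}
    (hi0 : ¬ A.fac (Fin.last (m + 1)) i0 ∣ A.g) : IsDomain (A.CRing lam) := by
  have h := irreducible_eqn A hG hl hg hi0
  have hp : (Ideal.span {A.eqn lam}).IsPrime :=
    (Ideal.span_singleton_prime h.ne_zero).2 h.prime
  exact Ideal.Quotient.isDomain _

end main

end Pool.Agent.Y797.TW
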