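import Pool.Agent.Y797.TW.Tor
import Pool.Agent.Y797.GC.Sard
set_option autoImplicit false

/-!
All tori together; smoothness for large `λ`.
-/

namespace Pool.Agent.Y797.TW

open Pool.Agent.TH826.MK

open MvPolynomial

variable {K : Type*} [Field K] {n : ℕ} {A : Tower K n}

theorem exists_tori (σ : K →+* ℂ) (hG : A.Graphs) :
    ∃ Λ : ℝ, 1 < Λ ∧ ∀ lam : K, Λ ≤ ‖σ lam‖ → ∃ Γ : (∀ j, Fin (A.r j)) → Torus (A.CRing lam) n,
      (∀ t θ x, (Γ t).e θ (A.mkC lam (C x)) = σ x) ∧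
      (Matrix.of fun t k : (∀ j, Fin (A.r j)) => (Γ t).reg (symb (A.ent lam k))).det ≠ 0 := by
  classical
  choose D hD0 hD using fun c => exists_torus (A := A) σ hG c
  have hdiag : (Matrix.diagonal D).det ≠ 0 := by
    rw [Matrix.det_diagonal]
    exact Finset.prod_ne_zero_iff.2 fun c _ => hD0 c
  obtain ⟨δ, hδ, hnear⟩ := Pool.Agent.TH826.SX.det_ne_zero_near _ hdiag
  choose Λ hΛ1 hΛ using fun c => hD c (δ / 2) (by linarith)
  refine ⟨2 + ∑ c, |Λ c|, by
    have : 0 ≤ ∑ c, |Λ c| := Finset.sum_nonneg fun _ _ => abs_nonneg _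
    linarith, fun lam hlam => ?_⟩
  have hle : ∀ c, Λ c ≤ ‖σ lam‖ := fun c => by
    have h1 := Finset.single_le_sum (f := fun c => |Λ c|) (fun _ _ => abs_nonneg _)
      (Finset.mem_univ c)
    have h2 := le_abs_self (Λ c)
    linarith
  have hlog : 0 < Real.log ‖σ lam‖ := by
    refine Real.log_pos ?_
    have : 0 ≤ ∑ c, |Λ c| := Finset.sum_nonneg fun _ _ => abs_nonneg _
    linarith
  choose Γ hΓσ hΓ using fun c => hΛ c lam (hle c)
  refine ⟨Γ, hΓσ, ?_⟩
  have h1 := hnear (Matrix.of fun t k : (∀ j, Fin (A.r j)) =>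
    (Γ t).reg (symb (A.ent lam k)) / (-Real.log ‖σ lam‖)) (fun t k => by
      have h2 := hΓ t k
      have h3 : Matrix.diagonal D t k = (if k = t then 1 else 0) * D t := by
        by_cases h : k = t
        · subst h
          rw [Matrix.diagonal_apply_eq, if_pos rfl, one_mul]
        · rw [Matrix.diagonal_apply_ne _ (Ne.symm h), if_neg h, zero_mul]
      rw [Matrix.of_apply, h3]
      exact lt_of_le_of_lt h2 (by linarith))
  intro h0
  apply h1
  have h4 : (Matrix.of fun t k : (∀ j, Fin (A.r j)) =>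
      (Γ t).reg (symb (A.ent lam k)) / (-Real.log ‖σ lam‖)) =
      (-Real.log ‖σ lam‖)⁻¹ • Matrix.of fun t k : (∀ j, Fin (A.r j)) =>
        (Γ t).reg (symb (A.ent lam k)) := by
    ext t k
    rw [Matrix.smul_apply, Matrix.of_apply, Matrix.of_apply, smul_eq_mul, div_eq_inv_mul]
  rw [h4, Matrix.det_smul, h0, mul_zero]

theorem eval_map (σ : K →+* ℂ) (x : Fin (n + 1) → ℂ) (p : MvPolynomial (Fin (n + 1)) K) :
    MvPolynomial.eval x (map σ p) = eval₂ σ x p := by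
  rw [MvPolynomial.eval_map]

theorem exists_smooth (A : Tower K n) (σ : K →+* ℂ) :
    ∃ Λ : ℝ, 1 < Λ ∧ ∀ lam : K, Λ ≤ ‖σ lam‖ → ∀ x : Fin (n + 1) → ℂ,
      eval₂ σ x (A.eqn lam) = 0 → ∃ i, eval₂ σ x (pderiv i (A.eqn lam)) ≠ 0 := by
  obtain ⟨ε, hε, h⟩ := Pool.Agent.Y797.GC.exists_level (map σ A.prod)
  have hinv : 0 < 1 / ε := by positivity
  refine ⟨1 / ε + 2, by linarith, fun lam hlam x hx => ?_⟩
  have hln : 0 < ‖σ lam‖ := by linarith
  have hl0 : σ lam ≠ 0 := norm_pos_iff.1 hln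
  have hη : ‖(σ lam)⁻¹‖ < ε := by
    rw [norm_inv, inv_lt_comm₀ hln hε, ← one_div]
    linarith
  have h1 : eval₂ σ x (A.eqn lam) = σ lam * eval₂ σ x A.prod - 1 := by
    unfold Tower.eqn
    rw [MvPolynomial.eval₂_sub, MvPolynomial.eval₂_mul, MvPolynomial.eval₂_C,
      MvPolynomial.eval₂_one]
  rw [h1] at hx
  obtain ⟨i, hi⟩ := h _ (inv_ne_zero hl0) hη x (by
    rw [eval_map]
    exact eq_inv_of_mul_eq_one_right (sub_eq_zero.1 hx))
  refine ⟨i, ?_⟩
  have h2 : pderiv i (A.eqn lam) = C lam * pderiv i A.prod := by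
    unfold Tower.eqn
    rw [map_sub, Derivation.leibniz, MvPolynomial.pderiv_C, smul_zero, add_zero, smul_eq_mul,
      MvPolynomial.pderiv_one, sub_zero]
  rw [h2, MvPolynomial.eval₂_mul, MvPolynomial.eval₂_C]
  refine mul_ne_zero hl0 ?_
  rw [MvPolynomial.pderiv_map, eval_map] at hi
  exact hi

end Pool.Agent.Y797.TW
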