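import Pool.Agent.TH826.MK.Torus
set_option autoImplicit false

/-!
Definitions: the hypersurfaces `λ g ∏_j ∏_i (x_j - φ_{j,i}(x_{j+1}, ..., x_n)) = 1` and the symbols
with the entries `(x_j - φ_{j,k}) / (x_j - φ_{j,0})`.
-/

namespace Pool.Agent.Y797.TW

open Pool.Agent.TH826.MK (KQ symb Torus)

open MvPolynomial

/-- The data of a tower of graphs in the affine space with the coordinates `x_0, ..., x_n`: for
every `j` the polynomials `φ_{j,0}, ..., φ_{j,r_j}` (in the variables `x_l`, `l > j`), and a further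
polynomial `g`. -/
structure Tower (K : Type*) [Field K] (n : ℕ) where
  /-- the numbers `r_j` -/
  r : Fin (n + 1) → ℕ
  /-- the polynomials `φ_{j,i}` -/
  phi : (j : Fin (n + 1)) → Fin (r j + 1) → MvPolynomial (Fin (n + 1)) K
  /-- the polynomial `g` -/
  g : MvPolynomial (Fin (n + 1)) K

namespace Tower

variable {K : Type*} [Field K] {n : ℕ} (A : Tower K n) (lam : K)

/-- The polynomials `φ_{j,i}` contain only the variables `x_l` with `l > j`, for each `j` they are
different, and `g` is not zero. -/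
def Graphs : Prop :=
  (∀ j i, ∀ l ∈ (A.phi j i).vars, j < l) ∧ (∀ j, Function.Injective (A.phi j)) ∧ A.g ≠ 0

/-- The coefficients of the polynomials `φ_{j,i}` and `g` are algebraic integers. -/
def Integral : Prop :=
  (∀ j i m, IsIntegral ℤ ((A.phi j i).coeff m)) ∧ ∀ m, IsIntegral ℤ (A.g.coeff m)

/-- The polynomial `x_j - φ_{j,i}`. -/
noncomputable def fac (j : Fin (n + 1)) (i : Fin (A.r j + 1)) : MvPolynomial (Fin (n + 1)) K :=
  X j - A.phi j i

/-- The polynomial `g ∏_j ∏_i (x_j - φ_{j,i})`. -/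
noncomputable def prod : MvPolynomial (Fin (n + 1)) K := A.g * ∏ j, ∏ i, A.fac j i

/-- The polynomial `λ g ∏_j ∏_i (x_j - φ_{j,i}) - 1`. -/
noncomputable def eqn : MvPolynomial (Fin (n + 1)) K := C lam * A.prod - 1

/-- The coordinate ring of the hypersurface. -/
def CRing : Type _ := MvPolynomial (Fin (n + 1)) K ⧸ Ideal.span {A.eqn lam}

noncomputable instance : CommRing (A.CRing lam) :=
  show CommRing (MvPolynomial (Fin (n + 1)) K ⧸ Ideal.span {A.eqn lam}) from inferInstance

/-- The functions on the hypersurface defined by the polynomials. -/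
noncomputable def mkC : MvPolynomial (Fin (n + 1)) K →+* A.CRing lam :=
  Ideal.Quotient.mk (Ideal.span {A.eqn lam})

theorem mkC_eqn : A.mkC lam (A.eqn lam) = 0 :=
  Ideal.Quotient.eq_zero_iff_mem.2 (Ideal.subset_span rfl)

theorem prod_of_hom {B : Type*} [CommRing B] (F : MvPolynomial (Fin (n + 1)) K →+* B)
    (h : F (A.eqn lam) = 0) : F (C lam) * (F A.g * ∏ j, ∏ i, F (A.fac j i)) = 1 := by
  unfold eqn prod at h
  rw [map_sub, map_one, sub_eq_zero] at h
  rw [← h]
  simp only [map_mul, map_prod]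

theorem isUnit_fac (j : Fin (n + 1)) (i : Fin (A.r j + 1)) : IsUnit (A.mkC lam (A.fac j i)) := by
  refine isUnit_of_dvd_one ?_
  rw [← A.prod_of_hom lam (A.mkC lam) (A.mkC_eqn lam)]
  refine Dvd.dvd.mul_left (Dvd.dvd.mul_left ?_ _) _
  exact (Finset.dvd_prod_of_mem (fun i => A.mkC lam (A.fac j i)) (Finset.mem_univ i)).trans
    (Finset.dvd_prod_of_mem (fun j => ∏ i, A.mkC lam (A.fac j i)) (Finset.mem_univ j))

/-- The unit `x_j - φ_{j,i}` on the hypersurface. -/
noncomputable def unit (j : Fin (n + 1)) (i : Fin (A.r j + 1)) : (A.CRing lam)ˣ :=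
  (A.isUnit_fac lam j i).unit

theorem coe_unit (j : Fin (n + 1)) (i : Fin (A.r j + 1)) :
    (A.unit lam j i : A.CRing lam) = A.mkC lam (A.fac j i) := rfl

/-- The unit `(x_j - φ_{j,k_j + 1}) / (x_j - φ_{j,0})`, for `0 ≤ k_j < r_j`. -/
noncomputable def ent (k : ∀ j, Fin (A.r j)) (j : Fin (n + 1)) : (A.CRing lam)ˣ :=
  A.unit lam j (k j).succ / A.unit lam j 0

end Tower

end Pool.Agent.Y797.TW
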