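import Mathlib
set_option autoImplicit false

/-!
Polynomials become monomials times functions that do not vanish at `0` after a suitable monomial
change of the coordinates.
-/

namespace Pool.Agent.Y797.TW

open MvPolynomial

section exps

variable {N : ℕ}

/-- the exponents of the change of coordinates: `t_j = s_j ∏_{l > j} s_l ^ m_j` -/
def ex (m : Fin N → ℕ) (j l : Fin N) : ℕ := if j = l then 1 else if j < l then m j else 0

/-- the monomial change of coordinates -/
def mch (m : Fin N → ℕ) (s : Fin N → ℂ) (j : Fin N) : ℂ := ∏ l, s l ^ ex m j l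

/-- the exponents in the new coordinates -/
def nex (m : Fin N → ℕ) (α : Fin N → ℕ) (l : Fin N) : ℕ := ∑ j, α j * ex m j l

theorem prod_mch (m : Fin N → ℕ) (s : Fin N → ℂ) (α : Fin N → ℕ) :
    ∏ j, mch m s j ^ α j = ∏ l, s l ^ nex m α l := by
  unfold mch nex
  simp only [← Finset.prod_pow, ← pow_mul]
  rw [Finset.prod_comm]
  refine Finset.prod_congr rfl fun l _ => ?_
  rw [Finset.prod_pow_eq_pow_sum]
  congr 1
  exact Finset.sum_congr rfl fun j _ => mul_comm _ _

/-- rapidly decreasing exponents -/
def Rapid (D : ℕ) (m : Fin N → ℕ) : Prop :=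
  (∀ j, 1 ≤ m j) ∧ ∀ i, D * (∑ j, if i < j then m j else 0) ≤ m i

theorem exists_rapid (D : ℕ) : ∀ N : ℕ, ∃ m : Fin N → ℕ, Rapid D m
  | 0 => ⟨fun _ => 1, fun j => j.elim0, fun j => j.elim0⟩
  | N + 1 => by
    obtain ⟨m, h1, h2⟩ := exists_rapid D N
    refine ⟨Fin.cons (D * (∑ j, m j) + 1) m, fun j => ?_, fun i => ?_⟩
    · refine Fin.cases ?_ (fun j => ?_) j
      · rw [Fin.cons_zero]
        omega
      · rw [Fin.cons_succ]
        exact h1 j
    · rw [Fin.sum_univ_succ]
      refine Fin.cases ?_ (fun i => ?_) i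
      · simp only [lt_irrefl, if_false, Fin.succ_pos, if_true, Fin.cons_succ, Fin.cons_zero,
          zero_add]
        omega
      · simp only [Fin.not_lt_zero, if_false, Fin.succ_lt_succ_iff, Fin.cons_succ, zero_add]
        exact h2 i

theorem nex_compare {D : ℕ} {m : Fin N → ℕ} (hm : Rapid D m) {α β : Fin N → ℕ}
    (hα : ∀ j, α j ≤ D) {i : Fin N} (hlt : ∀ j, j < i → α j = β j) (hi : α i < β i) :
    (∀ l, nex m α l ≤ nex m β l) ∧ nex m α i < nex m β i := by
  have h1 : ∀ l, l < i → nex m α l = nex m β l := by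
    intro l hl
    unfold nex
    refine Finset.sum_congr rfl fun j _ => ?_
    by_cases hj : j < i
    · rw [hlt j hj]
    · have hjl : ¬ j < l := fun h => hj (h.trans hl)
      have hjl' : j ≠ l := fun h => hj (h ▸ hl)
      unfold ex
      rw [if_neg hjl', if_neg hjl, mul_zero, mul_zero]
  have h2 : nex m α i < nex m β i := by
    unfold nex
    refine Finset.sum_lt_sum (fun j _ => ?_) ⟨i, Finset.mem_univ i, ?_⟩
    · rcases lt_trichotomy j i with hj | hj | hj
      · rw [hlt j hj]
      · subst hj
        exact Nat.mul_le_mul_right _ hi.le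
      · unfold ex
        rw [if_neg hj.ne', if_neg (not_lt.2 hj.le), mul_zero, mul_zero]
    · unfold ex
      rw [if_pos rfl, mul_one, mul_one]
      exact hi
  refine ⟨fun l => ?_, h2⟩
  rcases lt_trichotomy l i with hl | hl | hl
  · exact (h1 l hl).le
  · subst hl
    exact h2.le
  · unfold nex
    have hex : ∀ j, ex m j l ≤ m j := by
      intro j
      unfold ex
      split_ifs
      · exact hm.1 j
      · exact le_rfl
      · exact Nat.zero_le _
    have hexi : ex m i l = m i := by
      unfold ex
      rw [if_neg hl.ne, if_pos hl]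
    have h3 : ∀ γ : Fin N → ℕ, ∑ j, γ j * ex m j l = (∑ j, if j < i then γ j * ex m j l else 0) +
        γ i * m i + ∑ j, if i < j then γ j * ex m j l else 0 := by
      intro γ
      rw [← hexi]
      have e : γ i * ex m i l = ∑ j, if j = i then γ j * ex m j l else 0 := by
        rw [Finset.sum_ite_eq' Finset.univ i, if_pos (Finset.mem_univ i)]
      rw [e, ← Finset.sum_add_distrib, ← Finset.sum_add_distrib]
      refine Finset.sum_congr rfl fun j _ => ?_
      rcases lt_trichotomy j i with hj | hj | hj
      · rw [if_pos hj, if_neg hj.ne, if_neg (not_lt.2 hj.le), add_zero, add_zero]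
      · subst hj
        simp
      · rw [if_neg (not_lt.2 hj.le), if_neg hj.ne', if_pos hj, zero_add, zero_add]
    have h4 : (∑ j, if j < i then α j * ex m j l else 0) =
        ∑ j, if j < i then β j * ex m j l else 0 := by
      refine Finset.sum_congr rfl fun j _ => ?_
      by_cases hj : j < i
      · rw [if_pos hj, if_pos hj, hlt j hj]
      · rw [if_neg hj, if_neg hj]
    have h5 : (∑ j, if i < j then α j * ex m j l else 0) ≤ m i := by
      refine le_trans ?_ (hm.2 i)
      rw [Finset.mul_sum]
      refine Finset.sum_le_sum fun j _ => ?_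
      by_cases hj : i < j
      · rw [if_pos hj, if_pos hj]
        exact Nat.mul_le_mul (hα j) (hex j)
      · rw [if_neg hj, if_neg hj, mul_zero]
    rw [h3 α, h3 β, h4]
    have h6 : α i * m i + m i ≤ β i * m i := by
      have : (α i + 1) * m i ≤ β i * m i := Nat.mul_le_mul_right _ hi
      linarith
    have h7 : 0 ≤ ∑ j, if i < j then β j * ex m j l else 0 := Nat.zero_le _
    omega

end exps

section mono

variable {N : ℕ}

/-- The lexicographically smallest exponent of a polynomial. -/
def IsLow (F : MvPolynomial (Fin N) ℂ) (α : Fin N →₀ ℕ) : Prop :=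
  α ∈ F.support ∧ ∀ β ∈ F.support, β ≠ α → ∃ i, (∀ j, j < i → α j = β j) ∧ α i < β i

theorem exists_low {F : MvPolynomial (Fin N) ℂ} (hF : F ≠ 0) : ∃ α, IsLow F α := by
  obtain ⟨α, hα, hmin⟩ := F.support.exists_min_image (fun β => toLex (fun j => β j))
    (MvPolynomial.support_nonempty.2 hF)
  refine ⟨α, hα, fun β hβ hne => ?_⟩
  have h := hmin β hβ
  have h2 : toLex (fun j => α j) ≠ toLex (fun j => β j) := by
    intro e
    apply hne
    ext j
    exact (congrFun (toLex.injective e) j).symm
  have h3 := lt_of_le_of_ne h h2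
  obtain ⟨i, h4, h5⟩ := h3
  exact ⟨i, h4, h5⟩

/-- If the polynomial has an exponent that vanishes for all `l ≤ j`, so does the smallest one. -/
theorem IsLow.zero {F : MvPolynomial (Fin N) ℂ} {α : Fin N →₀ ℕ} (h : IsLow F α)
    {β : Fin N →₀ ℕ} (hβ : β ∈ F.support) {j : Fin N} (h0 : ∀ l, l ≤ j → β l = 0) :
    ∀ l, l ≤ j → α l = 0 := by
  by_cases hne : β = α
  · rw [← hne]
    exact h0
  · obtain ⟨i, h1, h2⟩ := h.2 β hβ hne
    have hij : j < i := by
      by_contra hcon
      rw [h0 i (not_lt.1 hcon)] at h2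
      exact absurd h2 (Nat.not_lt_zero _)
    intro l hl
    rw [h1 l (hl.trans_lt hij)]
    exact h0 l hl

theorem isLow_X (j : Fin N) : IsLow (X j) (Finsupp.single j 1) := by
  classical
  have h : (X j : MvPolynomial (Fin N) ℂ).support = {Finsupp.single j 1} :=
    MvPolynomial.support_X
  refine ⟨by rw [h]; exact Finset.mem_singleton_self _, fun β hβ hne => ?_⟩
  rw [h, Finset.mem_singleton] at hβ
  exact absurd hβ hne

/-- The second factor. -/
noncomputable def hh (m : Fin N → ℕ) (F : MvPolynomial (Fin N) ℂ) (α : Fin N →₀ ℕ)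
    (s : Fin N → ℂ) : ℂ :=
  ∑ β ∈ F.support, F.coeff β * ∏ l, s l ^ (nex m (fun j => β j) l - nex m (fun j => α j) l)

theorem contDiff_hh (m : Fin N → ℕ) (F : MvPolynomial (Fin N) ℂ) (α : Fin N →₀ ℕ) :
    ContDiff ℂ 2 (hh m F α) := by
  unfold hh
  refine ContDiff.sum fun β _ => contDiff_const.mul ?_
  exact contDiff_prod fun l _ => (contDiff_apply ℂ ℂ l).pow _

theorem eval_mch {D : ℕ} {m : Fin N → ℕ} (hm : Rapid D m) {F : MvPolynomial (Fin N) ℂ}
    {α : Fin N →₀ ℕ} (h : IsLow F α) (hD : ∀ j, α j ≤ D) (s : Fin N → ℂ) :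
    MvPolynomial.eval (mch m s) F = (∏ l, s l ^ nex m (fun j => α j) l) * hh m F α s := by
  rw [MvPolynomial.eval_eq', hh, Finset.mul_sum]
  refine Finset.sum_congr rfl fun β hβ => ?_
  have h1 : ∏ j, mch m s j ^ β j = ∏ l, s l ^ nex m (fun j => β j) l :=
    prod_mch m s fun j => β j
  rw [h1, mul_left_comm, ← Finset.prod_mul_distrib]
  congr 1
  refine Finset.prod_congr rfl fun l _ => ?_
  rw [← pow_add]
  congr 1
  by_cases hne : β = α
  · subst hne
    omega
  · obtain ⟨i, h2, h3⟩ := h.2 β hβ hne
    have h4 := (nex_compare hm (α := fun j => α j) (β := fun j => β j) hD h2 h3).1 l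
    omega

theorem hh_zero {D : ℕ} {m : Fin N → ℕ} (hm : Rapid D m) {F : MvPolynomial (Fin N) ℂ}
    {α : Fin N →₀ ℕ} (h : IsLow F α) (hD : ∀ j, α j ≤ D) : hh m F α 0 ≠ 0 := by
  classical
  unfold hh
  rw [Finset.sum_eq_single α]
  · simp only [Nat.sub_self, pow_zero, Finset.prod_const_one, mul_one]
    exact MvPolynomial.mem_support_iff.1 h.1
  · intro β hβ hne
    obtain ⟨i, h2, h3⟩ := h.2 β hβ hne
    have h4 := (nex_compare hm (α := fun j => α j) (β := fun j => β j) hD h2 h3).2
    rw [Finset.prod_eq_zero (Finset.mem_univ i), mul_zero]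
    rw [Pi.zero_apply]
    exact zero_pow (by omega)
  · intro hn
    exact absurd h.1 hn

end mono

section tri

variable {N : ℕ}

/-- The polynomials `x_j` with `x_j = t_j + φ_j(x_{j+1}, ..., x_n)`. -/
theorem exists_tri (φ : Fin N → MvPolynomial (Fin N) ℂ) (hφ : ∀ j, ∀ l ∈ (φ j).vars, j < l) :
    ∃ x : Fin N → MvPolynomial (Fin N) ℂ, (∀ j, x j = X j + bind₁ x (φ j)) ∧
      ∀ j, ∀ l ∈ (x j).vars, j ≤ l := by
  classical
  have key : ∀ k : ℕ, k ≤ N → ∃ x : Fin N → MvPolynomial (Fin N) ℂ,
      (∀ j : Fin N, N - k ≤ j → x j = X j + bind₁ x (φ j)) ∧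
      ∀ j : Fin N, ∀ l ∈ (x j).vars, j ≤ l := by
    intro k
    induction k with
    | zero =>
      intro _
      exact ⟨0, fun j hj => absurd j.2 (by omega), fun j l hl => by simp at hl⟩
    | succ k ih =>
      intro hk
      obtain ⟨x, h1, h2⟩ := ih (by omega)
      set j0 : Fin N := ⟨N - (k + 1), by omega⟩ with hj0
      set x' : Fin N → MvPolynomial (Fin N) ℂ :=
        Function.update x j0 (X j0 + bind₁ x (φ j0)) with hx'
      have hcongr : ∀ j, j0 ≤ j → bind₁ x' (φ j) = bind₁ x (φ j) := by
        intro j hj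
        refine MvPolynomial.eval₂Hom_congr' rfl (fun i hi _ => ?_) rfl
        have hne : i ≠ j0 := (hj.trans_lt (hφ j i hi)).ne'
        rw [hx', Function.update_of_ne hne]
      refine ⟨x', fun j hj => ?_, fun j l hl => ?_⟩
      · by_cases he : j = j0
        · subst he
          rw [hcongr j0 le_rfl, hx', Function.update_self]
        · have hlt : j0 < j := by
            refine lt_of_le_of_ne ?_ (Ne.symm he)
            rw [Fin.le_def]
            exact hj
          rw [hcongr j hlt.le, hx', Function.update_of_ne he]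
          refine h1 j ?_
          have h3 : (j0 : ℕ) < j := hlt
          have h4 : (j0 : ℕ) = N - (k + 1) := rfl
          omega
      · by_cases he : j = j0
        · subst he
          rw [hx', Function.update_self] at hl
          have h3 := MvPolynomial.vars_add_subset _ _ hl
          rcases Finset.mem_union.1 h3 with h4 | h4
          · rw [MvPolynomial.vars_X, Finset.mem_singleton] at h4
            exact h4.ge
          · obtain ⟨i, hi, hi2⟩ := MvPolynomial.mem_vars_bind₁ _ _ h4
            exact ((hφ _ i hi).le).trans (h2 i l hi2)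
        · rw [hx', Function.update_of_ne he] at hl
          exact h2 j l hl
  obtain ⟨x, h1, h2⟩ := key N le_rfl
  exact ⟨x, fun j => h1 j (by omega), h2⟩

/-- The substitution is injective. -/
theorem tri_injective {φ x : Fin N → MvPolynomial (Fin N) ℂ}
    (hφ : ∀ j, ∀ l ∈ (φ j).vars, j < l) (hx : ∀ j, x j = X j + bind₁ x (φ j)) :
    Function.Injective (bind₁ x) := by
  set y : Fin N → MvPolynomial (Fin N) ℂ := fun j => X j - φ j with hy
  have key : ∀ k : ℕ, ∀ j : Fin N, N - k ≤ j → bind₁ y (x j) = X j := by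
    intro k
    induction k with
    | zero => exact fun j hj => absurd j.2 (by omega)
    | succ k ih =>
      intro j hj
      rw [hx j, map_add, MvPolynomial.bind₁_X_right, MvPolynomial.bind₁_bind₁]
      have h1 : bind₁ (fun i => bind₁ y (x i)) (φ j) = φ j := by
        conv_rhs => rw [← MvPolynomial.aeval_X_left_apply (φ j)]
        refine MvPolynomial.eval₂Hom_congr' rfl (fun i hi _ => ?_) rfl
        refine ih i ?_
        have h2 : (j : ℕ) < i := hφ j i hi
        omega
      rw [h1]
      exact sub_add_cancel _ _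
  refine Function.LeftInverse.injective (g := bind₁ y) fun p => ?_
  rw [MvPolynomial.bind₁_bind₁]
  have h2 : (fun i => bind₁ y (x i)) = X := by
    funext i
    exact key N i (by omega)
  rw [h2]
  exact MvPolynomial.aeval_X_left_apply p

end tri

end Pool.Agent.Y797.TW
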