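import Pool.Agent.Y797.TW.Def
import Pool.Agent.Y797.TW.Mon
import Pool.Agent.TH577.UA.Tor
set_option autoImplicit false

/-!
The complex points of the hypersurfaces, and the charts near the corners of the tower.
-/

namespace Pool.Agent.Y797.TW

open Pool.Agent.TH826.MK

open Pool.Agent.TH577.UA (mmon)

open MvPolynomial

section Ev

variable {K : Type*} [Field K] {n d : ℕ} {A : Tower K n} {lam : K} {σ : K →+* ℂ}

/-- the complex points of the hypersurface -/
def Pt (A : Tower K n) (σ : K →+* ℂ) (lam : K) (x : Fin (n + 1) → ℂ) : Prop :=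
  σ lam * (eval₂ σ x A.g * ∏ j, ∏ i, eval₂ σ x (A.fac j i)) = 1

theorem eval_eqn (x : Fin (n + 1) → ℂ) : eval₂ σ x (A.eqn lam) =
    σ lam * (eval₂ σ x A.g * ∏ j, ∏ i, eval₂ σ x (A.fac j i)) - 1 := by
  unfold Tower.eqn Tower.prod
  rw [MvPolynomial.eval₂_sub, MvPolynomial.eval₂_mul, MvPolynomial.eval₂_mul,
    MvPolynomial.eval₂_C, MvPolynomial.eval₂_one, MvPolynomial.eval₂_prod]
  simp only [MvPolynomial.eval₂_prod]

/-- evaluation of the regular functions at a complex point -/
noncomputable def evC {x : Fin (n + 1) → ℂ} (hx : Pt A σ lam x) : A.CRing lam →+* ℂ :=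
  Ideal.Quotient.lift (Ideal.span {A.eqn lam}) (eval₂Hom σ x) (by
    intro p hp
    have hle : Ideal.span {A.eqn lam} ≤ RingHom.ker (eval₂Hom σ x) := by
      rw [Ideal.span_le]
      rintro q rfl
      show eval₂ σ x (A.eqn lam) = 0
      rw [eval_eqn, sub_eq_zero]
      exact hx
    exact hle hp)

theorem evC_mk {x : Fin (n + 1) → ℂ} (hx : Pt A σ lam x) (p : MvPolynomial (Fin (n + 1)) K) :
    evC hx (A.mkC lam p) = eval₂ σ x p :=
  Ideal.Quotient.lift_mk _ _ _

theorem evC_congr {x y : Fin (n + 1) → ℂ} (hx : Pt A σ lam x) (hy : Pt A σ lam y)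
    (h : x = y) : evC hx = evC hy := by
  subst h
  rfl

theorem contDiff_evC {x : (Fin d → ℝ) → (Fin (n + 1) → ℂ)} (hc : ContDiff ℝ 2 x)
    (hx : ∀ θ, Pt A σ lam (x θ)) (h : A.CRing lam) : ContDiff ℝ 2 fun θ => evC (hx θ) h := by
  have hxk : ∀ k, ContDiff ℝ 2 fun θ => x θ k := fun k => contDiff_pi.1 hc k
  obtain ⟨p, hp⟩ := Ideal.Quotient.mk_surjective h
  have hmv : ∀ p : MvPolynomial (Fin (n + 1)) K, ContDiff ℝ 2 fun θ => eval₂ σ (x θ) p := by
    intro p
    induction p using MvPolynomial.induction_on with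
    | C c => simpa using contDiff_const
    | add p q hp hq => simpa using hp.add hq
    | mul_X p k hp => simpa using hp.mul (hxk k)
  have e : (fun θ => evC (hx θ) h) = fun θ => eval₂ σ (x θ) p := by
    funext θ
    rw [← hp]
    exact evC_mk (hx θ) p
  rw [e]
  exact hmv p

/-- a torus in the hypersurface -/
noncomputable def mkT (x : (Fin d → ℝ) → (Fin (n + 1) → ℂ)) (hc : ContDiff ℝ 2 x)
    (hp : ∀ θ i, x (θ + Pi.single i 1) = x θ) (hx : ∀ θ, Pt A σ lam (x θ)) :
    Torus (A.CRing lam) d where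
  e θ := evC (hx θ)
  smooth h := contDiff_evC hc hx h
  periodic θ i := evC_congr _ _ (hp θ i)

theorem mkT_unit (x : (Fin d → ℝ) → (Fin (n + 1) → ℂ)) (hc : ContDiff ℝ 2 x)
    (hp : ∀ θ i, x (θ + Pi.single i 1) = x θ) (hx : ∀ θ, Pt A σ lam (x θ))
    (j : Fin (n + 1)) (i : Fin (A.r j + 1)) :
    (mkT x hc hp hx).fn (A.unit lam j i : A.CRing lam) = fun θ => eval₂ σ (x θ) (A.fac j i) := by
  funext θ
  exact evC_mk (hx θ) _

end Ev

section chart

variable {K : Type*} [Field K] {n : ℕ} (A : Tower K n)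

/-- the factors of the equation -/
noncomputable def fct : Option ((j : Fin (n + 1)) × Fin (A.r j + 1)) →
    MvPolynomial (Fin (n + 1)) K
  | none => A.g
  | some e => A.fac e.1 e.2

/-- coordinates -/
def wcc (u : (Fin n → ℂ) × ℂ) : Fin (n + 1) → ℂ := Fin.cons u.2 u.1

theorem wcc_zero : wcc (0 : (Fin n → ℂ) × ℂ) = 0 := by
  funext j
  refine Fin.cases ?_ (fun j => ?_) j
  · rfl
  · rfl

theorem contDiff_wcc : ContDiff ℂ 2 (wcc (n := n)) := by
  refine contDiff_pi.2 fun j => ?_
  refine Fin.cases ?_ (fun j => ?_) j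
  · exact contDiff_snd
  · exact (contDiff_apply ℂ ℂ j).comp contDiff_fst

theorem prod_wcc (μ : Fin (n + 1) → ℕ) (u : (Fin n → ℂ) × ℂ) :
    ∏ l, wcc u l ^ μ l = mmon μ u := by
  rw [Fin.prod_univ_succ]
  rfl

/-- The chart at the corner of the graphs `φ_{j, c_j}`. -/
theorem exists_chart (σ : K →+* ℂ) (hG : A.Graphs) (c : ∀ j, Fin (A.r j + 1)) :
    ∃ (x : Fin (n + 1) → MvPolynomial (Fin (n + 1)) ℂ)
      (al : Option ((j : Fin (n + 1)) × Fin (A.r j + 1)) → Fin (n + 1) →₀ ℕ),
      (∀ e, IsLow (bind₁ x (map σ (fct A e))) (al e)) ∧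
      (∀ j, al (some ⟨j, c j⟩) = Finsupp.single j 1) ∧
      ∀ j i, i ≠ c j → ∀ l, l ≤ j → al (some ⟨j, i⟩) l = 0 := by
  classical
  set φ : Fin (n + 1) → MvPolynomial (Fin (n + 1)) ℂ := fun j => map σ (A.phi j (c j)) with hφ
  have hvars : ∀ (p : MvPolynomial (Fin (n + 1)) K), (map σ p).vars = p.vars := fun p =>
    MvPolynomial.vars_map_of_injective p σ.injective
  have hφv : ∀ j, ∀ l ∈ (φ j).vars, j < l := by
    intro j l hl
    rw [hφ, hvars] at hl
    exact hG.1 j _ l hl
  obtain ⟨x, hx, hxv⟩ := exists_tri φ hφv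
  have hinj : Function.Injective (bind₁ x) := tri_injective hφv hx
  have hmapinj : Function.Injective (map σ : MvPolynomial (Fin (n + 1)) K →
      MvPolynomial (Fin (n + 1)) ℂ) := MvPolynomial.map_injective σ σ.injective
  -- the decomposition
  have hdec : ∀ (j : Fin (n + 1)) (i : Fin (A.r j + 1)), bind₁ x (map σ (A.fac j i)) =
      X j + bind₁ x (map σ (A.phi j (c j) - A.phi j i)) := by
    intro j i
    unfold Tower.fac
    rw [map_sub, map_sub, map_sub, map_sub, MvPolynomial.map_X, MvPolynomial.bind₁_X_right]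
    nth_rewrite 1 [hx j]
    ring
  have hself : ∀ j, bind₁ x (map σ (A.fac j (c j))) = X j := by
    intro j
    rw [hdec, sub_self, map_zero, map_zero, add_zero]
  have hpsi : ∀ (j : Fin (n + 1)) (i : Fin (A.r j + 1)), i ≠ c j →
      ∃ β ∈ (bind₁ x (map σ (A.fac j i))).support, ∀ l, l ≤ j → β l = 0 := by
    intro j i hi
    set ψ := bind₁ x (map σ (A.phi j (c j) - A.phi j i)) with hψ
    have hψ0 : ψ ≠ 0 := by
      intro h
      have h1 : map σ (A.phi j (c j) - A.phi j i) = 0 := hinj (by rw [map_zero]; exact h)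
      have h2 : A.phi j (c j) - A.phi j i = 0 := hmapinj (by rw [map_zero]; exact h1)
      exact hi (hG.2.1 j (sub_eq_zero.1 h2)).symm
    obtain ⟨β, hβ⟩ := MvPolynomial.support_nonempty.2 hψ0
    have hβ0 : ∀ l, l ≤ j → β l = 0 := by
      intro l hl
      by_contra hne
      have h1 : l ∈ ψ.vars := (MvPolynomial.mem_vars l).2 ⟨β, hβ, Finsupp.mem_support_iff.2 hne⟩
      obtain ⟨m, hm, hm2⟩ := MvPolynomial.mem_vars_bind₁ _ _ h1
      rw [hvars] at hm
      have h2 := MvPolynomial.vars_sub_subset _ hm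
      have h3 : j < m := by
        rcases Finset.mem_union.1 h2 with h | h
        · exact hG.1 j _ m h
        · exact hG.1 j _ m h
      exact absurd hl (not_le.2 (h3.trans_le (hxv m l hm2)))
    refine ⟨β, ?_, hβ0⟩
    rw [hdec, MvPolynomial.mem_support_iff, MvPolynomial.coeff_add, MvPolynomial.coeff_X, if_neg,
      zero_add]
    · exact MvPolynomial.mem_support_iff.1 hβ
    · intro h
      have h1 := hβ0 j le_rfl
      rw [← h, Finsupp.single_eq_same] at h1
      exact one_ne_zero h1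
  have hne : ∀ e, bind₁ x (map σ (fct A e)) ≠ 0 := by
    intro e h
    have h1 : map σ (fct A e) = 0 := hinj (by rw [map_zero]; exact h)
    have h2 : fct A e = 0 := hmapinj (by rw [map_zero]; exact h1)
    cases e with
    | none => exact hG.2.2 h2
    | some e =>
      have h3 : A.fac e.1 e.2 = 0 := h2
      have h4 := hdec e.1 e.2
      rw [h3, map_zero, map_zero] at h4
      by_cases hi : e.2 = c e.1
      · rw [hi, sub_self, map_zero, map_zero, add_zero] at h4
        exact MvPolynomial.X_ne_zero e.1 h4.symm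
      · obtain ⟨β, hβ, -⟩ := hpsi e.1 e.2 hi
        rw [h3, map_zero, map_zero, MvPolynomial.support_zero] at hβ
        exact absurd hβ (Finset.notMem_empty β)
  choose al hal using fun e => exists_low (hne e)
  refine ⟨x, al, hal, fun j => ?_, fun j i hi => ?_⟩
  · have h1 := (hal (some ⟨j, c j⟩)).1
    have h2 : bind₁ x (map σ (fct A (some ⟨j, c j⟩))) = X j := hself j
    rw [h2, MvPolynomial.support_X, Finset.mem_singleton] at h1
    exact h1
  · obtain ⟨β, hβ, hβ0⟩ := hpsi j i hi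
    exact (hal (some ⟨j, i⟩)).zero hβ hβ0

end chart

end Pool.Agent.Y797.TW
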