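import Pool.Agent.Y797.TW.Ev
set_option autoImplicit false

/-!
The tori near the corners of the tower, and the regulators of the symbols on them.
-/

namespace Pool.Agent.Y797.TW

open Pool.Agent.TH826.MK

open Pool.Agent.TH577.UA (mmon mrow yrow det_yrow exists_points)

open Pool.Agent.TH826.SX (pairing_close)

open MvPolynomial

section det

variable {n : ℕ} {r : Fin (n + 1) → ℕ}

theorem sum_nex (m α : Fin (n + 1) → ℕ) (l : Fin (n + 1)) :
    (nex m α l : ℝ) = ∑ j, (α j : ℝ) * (ex m j l : ℝ) := by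
  unfold nex
  push_cast
  rfl

theorem det_ex (m : Fin (n + 1) → ℕ) :
    (Matrix.of fun j l => ((ex m j l : ℕ) : ℝ)).det = 1 := by
  rw [Matrix.det_of_isUpperTriangular]
  · refine Finset.prod_eq_one fun i _ => ?_
    simp [ex]
  · intro i j hij
    have hij' : j < i := hij
    simp [ex, hij'.ne', not_lt.2 hij'.le]

/-- the determinant of the orders -/
theorem det_orders (q : ℕ) (N : Fin n → ℕ) (m : Fin (n + 1) → ℕ)
    (al : Option ((j : Fin (n + 1)) × Fin (r j + 1)) → Fin (n + 1) →₀ ℕ)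
    (c : ∀ j, Fin (r j)) (h1 : ∀ j, al (some ⟨j, (c j).succ⟩) = Finsupp.single j 1)
    (h2 : ∀ j i, i ≠ (c j).succ → ∀ l, l ≤ j → al (some ⟨j, i⟩) l = 0) (k : ∀ j, Fin (r j)) :
    (Matrix.of fun l j => mrow q N (nex m fun i => al (some ⟨l, (k l).succ⟩) i) j -
      mrow q N (nex m fun i => al (some ⟨l, 0⟩) i) j).det =
      (if k = c then 1 else 0) * (Matrix.of (yrow q N)).det := by
  have hz : ∀ j, (0 : Fin (r j + 1)) ≠ (c j).succ := fun j => (Fin.succ_ne_zero _).symm
  have h : (Matrix.of fun l j => mrow q N (nex m fun i => al (some ⟨l, (k l).succ⟩) i) j -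
      mrow q N (nex m fun i => al (some ⟨l, 0⟩) i) j) =
      (Matrix.of fun l i => ((al (some ⟨l, (k l).succ⟩) i : ℕ) : ℝ) -
        ((al (some ⟨l, 0⟩) i : ℕ) : ℝ)) *
      (Matrix.of fun j l => ((ex m j l : ℕ) : ℝ)) * Matrix.of (yrow q N) := by
    ext l j
    rw [Matrix.mul_apply]
    simp only [Matrix.of_apply, Matrix.mul_apply]
    unfold mrow
    rw [← Finset.sum_sub_distrib]
    refine Finset.sum_congr rfl fun i _ => ?_
    rw [← sub_mul, sum_nex, sum_nex, ← Finset.sum_sub_distrib]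
    congr 1
    exact Finset.sum_congr rfl fun p _ => by ring
  rw [h, Matrix.det_mul, Matrix.det_mul, det_ex, mul_one]
  congr 1
  rw [Matrix.det_of_isUpperTriangular]
  · by_cases hk : k = c
    · subst hk
      rw [if_pos rfl]
      refine Finset.prod_eq_one fun l _ => ?_
      rw [Matrix.of_apply, h1, h2 l 0 (hz l) l le_rfl, Finsupp.single_eq_same]
      norm_num
    · rw [if_neg hk]
      obtain ⟨l, hl⟩ := Function.ne_iff.1 hk
      refine Finset.prod_eq_zero (Finset.mem_univ l) ?_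
      rw [Matrix.of_apply, h2 l 0 (hz l) l le_rfl, h2 l (k l).succ ?_ l le_rfl, sub_self]
      exact fun e => hl (Fin.succ_injective _ e)
  · intro l j hlj
    have hlj' : j < l := hlj
    rw [Matrix.of_apply, h2 l 0 (hz l) j hlj'.le]
    by_cases hk : k l = c l
    · rw [hk, h1, Finsupp.single_eq_of_ne hlj'.ne]
      simp
    · rw [h2 l (k l).succ (fun e => hk (Fin.succ_injective _ e)) j hlj'.le, sub_self]

end det

section main

variable {K : Type*} [Field K] {n : ℕ} {A : Tower K n}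

theorem exists_torus (σ : K →+* ℂ) (hG : A.Graphs) (c : ∀ j, Fin (A.r j)) :
    ∃ D : ℝ, D ≠ 0 ∧ ∀ ε : ℝ, 0 < ε →
    ∃ Λ : ℝ, 1 < Λ ∧ ∀ lam : K, Λ ≤ ‖σ lam‖ → ∃ Γ : Torus (A.CRing lam) n,
      (∀ θ x, Γ.e θ (A.mkC lam (C x)) = σ x) ∧
      ∀ k, |Γ.reg (symb (A.ent lam k)) / (-Real.log ‖σ lam‖) -
          (if k = c then 1 else 0) * D| ≤ ε := by
  classical
  obtain ⟨x, al, hal, hal1, hal2⟩ := exists_chart A σ hG fun j => (c j).succ
  set D0 : ℕ := ∑ e, ∑ j, al e j with hD0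
  have hD : ∀ e j, al e j ≤ D0 := fun e j =>
    (Finset.single_le_sum (f := fun j => al e j) (fun _ _ => Nat.zero_le _)
      (Finset.mem_univ j)).trans
    (Finset.single_le_sum (f := fun e => ∑ j, al e j) (fun _ _ => Nat.zero_le _)
      (Finset.mem_univ e))
  obtain ⟨m, hm⟩ := exists_rapid D0 (n + 1)
  set μ : Option ((j : Fin (n + 1)) × Fin (A.r j + 1)) → Fin (n + 1) → ℕ :=
    fun e => nex m fun i => al e i with hμdef
  set q : ℕ := ∑ e, μ e 0 with hq
  set N : Fin n → ℕ := fun k => ∑ e, μ e k.succ with hN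
  have hq0 : 0 < q := by
    refine lt_of_lt_of_le one_pos (le_trans ?_ (Finset.single_le_sum (f := fun e => μ e 0)
      (fun _ _ => Nat.zero_le _) (Finset.mem_univ (some ⟨0, (c 0).succ⟩))))
    simp only [hμdef]
    rw [hal1 0]
    unfold nex
    refine le_trans ?_ (Finset.single_le_sum (f := fun j =>
      (Finsupp.single (0 : Fin (n + 1)) 1) j * ex m j 0) (fun _ _ => Nat.zero_le _)
      (Finset.mem_univ 0))
    simp [ex]
  refine ⟨(2 * Real.pi) ^ n * (Matrix.of (yrow q N)).det, mul_ne_zero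
    (pow_ne_zero _ (by have := Real.pi_pos; positivity)) (det_yrow hq0 N), fun ε hε => ?_⟩
  choose δ hδ hclose using fun k : ∀ j, Fin (A.r j) =>
    pairing_close (Matrix.of fun l j => mrow q N (μ (some ⟨l, (k l).succ⟩)) j -
      mrow q N (μ (some ⟨l, 0⟩)) j) hε
  obtain ⟨k0, -, hk0⟩ := Finset.exists_min_image Finset.univ δ ⟨c, Finset.mem_univ _⟩
  set δ0 : ℝ := δ k0 / 3 with hδ0
  have hδ0pos : 0 < δ0 := by
    have := hδ k0
    rw [hδ0]
    linarith
  have hδle : ∀ k, 2 * δ0 < δ k := by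
    intro k
    have h1 := hk0 k (Finset.mem_univ k)
    have h2 := hδ k0
    rw [hδ0]
    linarith
  obtain ⟨η0, hη0, hX⟩ := exists_points (q := q) (N := N)
    (H := fun e u => MvPolynomial.eval (mch m (wcc u)) (bind₁ x (map σ (fct A e))))
    (h := fun e u => hh m (bind₁ x (map σ (fct A e))) (al e) (wcc u))
    (μ := μ)
    (fun e u => by
      rw [eval_mch hm (hal e) (hD e), prod_wcc])
    (fun e => (contDiff_hh m _ _).comp contDiff_wcc)
    (fun e => by
      rw [wcc_zero]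
      exact hh_zero hm (hal e) (hD e))
    rfl hq0 (fun k => rfl) hδ0pos
  have hinvpos : 0 < 1 / η0 := by positivity
  refine ⟨1 / η0 + 2, by linarith, fun lam hlam => ?_⟩
  have hln : 0 < ‖σ lam‖ := by linarith
  have hl0 : σ lam ≠ 0 := norm_pos_iff.1 hln
  have hη : ‖(σ lam)⁻¹‖ < η0 := by
    rw [norm_inv, inv_lt_comm₀ hln hη0, ← one_div]
    linarith
  obtain ⟨hlog, U, hUc, hUp, hUe, hUg, hUest⟩ := hX _ (inv_ne_zero hl0) hη
  have hlogeq : Real.log ‖(σ lam)⁻¹‖ = -Real.log ‖σ lam‖ := by rw [norm_inv, Real.log_inv]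
  rw [hlogeq] at hlog hUest
  set s : ℝ := -Real.log ‖σ lam‖ with hs
  have hs0 : s ≠ 0 := hlog.ne
  set X : (Fin n → ℝ) → (Fin (n + 1) → ℂ) := fun θ j =>
    MvPolynomial.eval (mch m (wcc (U θ))) (x j) with hXdef
  have hval : ∀ (p : MvPolynomial (Fin (n + 1)) K) θ, eval₂ σ (X θ) p =
      MvPolynomial.eval (mch m (wcc (U θ))) (bind₁ x (map σ p)) := by
    intro p θ
    unfold MvPolynomial.eval
    rw [MvPolynomial.eval₂Hom_bind₁]
    show _ = MvPolynomial.eval₂ (RingHom.id ℂ) _ (map σ p)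
    rw [MvPolynomial.eval₂_map, RingHom.id_comp]
    rfl
  have hmch : ContDiff ℂ 2 fun u : (Fin n → ℂ) × ℂ => mch m (wcc u) := by
    refine contDiff_pi.2 fun j => ?_
    unfold mch
    exact contDiff_prod fun l _ => (contDiff_pi.1 contDiff_wcc l).pow _
  have hXc : ContDiff ℝ 2 X := by
    refine contDiff_pi.2 fun j => ?_
    have h1 : ∀ p : MvPolynomial (Fin (n + 1)) ℂ, ContDiff ℂ 2
        fun u : (Fin n → ℂ) × ℂ => MvPolynomial.eval (mch m (wcc u)) p := by
      intro p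
      induction p using MvPolynomial.induction_on with
      | C c => simpa using contDiff_const
      | add p q hp hq => simpa using hp.add hq
      | mul_X p k hp => simpa using hp.mul (contDiff_pi.1 hmch k)
    exact ((h1 (x j)).restrict_scalars ℝ).comp hUc
  have hXp : ∀ θ i, X (θ + Pi.single i 1) = X θ := fun θ i => by
    simp only [hXdef, hUp]
  have hPt : ∀ θ, Pt A σ lam (X θ) := fun θ => by
    have h1 := hUe θ
    rw [Fintype.prod_option, Fintype.prod_sigma] at h1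
    simp only [← hval] at h1
    unfold Pt
    have h2 : eval₂ σ (X θ) A.g * ∏ j, ∏ i, eval₂ σ (X θ) (A.fac j i) = (σ lam)⁻¹ := h1
    rw [h2]
    exact mul_inv_cancel₀ hl0
  have hgoodL : ∀ j i, Good fun θ => eval₂ σ (X θ) (A.fac j i) := fun j i => by
    have h1 := hUg (some ⟨j, i⟩)
    simp only [← hval] at h1
    exact h1
  have hest : ∀ j i θ, |Real.log ‖eval₂ σ (X θ) (A.fac j i)‖ / s -
      mrow q N (μ (some ⟨j, i⟩)) 0| ≤ δ0 ∧
      ∀ l, ‖lw (fun θ => eval₂ σ (X θ) (A.fac j i)) l θ - 2 * Real.pi * Complex.I *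
        mrow q N (μ (some ⟨j, i⟩)) l.succ‖ ≤ δ0 := fun j i θ => by
    have h1 := hUest (some ⟨j, i⟩) θ
    simp only [← hval] at h1
    exact h1
  refine ⟨mkT X hXc hXp hPt, fun θ y => ?_, fun k => ?_⟩
  · show evC (hPt θ) (A.mkC lam (C y)) = σ y
    rw [evC_mk, MvPolynomial.eval₂_C]
  have hfin : (if k = c then 1 else 0) * ((2 * Real.pi) ^ n * (Matrix.of (yrow q N)).det) =
      (2 * Real.pi) ^ n * (Matrix.of fun l j => mrow q N (μ (some ⟨l, (k l).succ⟩)) j -
        mrow q N (μ (some ⟨l, 0⟩)) j).det := by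
    rw [show (Matrix.of fun l j => mrow q N (μ (some ⟨l, (k l).succ⟩)) j -
        mrow q N (μ (some ⟨l, 0⟩)) j).det = (if k = c then 1 else 0) *
        (Matrix.of (yrow q N)).det from det_orders q N m al c hal1 hal2 k]
    ring
  rw [Torus.reg_symb, hfin]
  set Γ := mkT X hXc hXp hPt with hΓ
  have hau : ∀ j i, Γ.fn (A.unit lam j i : A.CRing lam) = fun θ => eval₂ σ (X θ) (A.fac j i) :=
    fun j i => mkT_unit X hXc hXp hPt j i
  have hgoodE : ∀ l, Good (Γ.fn (A.ent lam k l : A.CRing lam)) := fun l => Γ.good _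
  have hmul : ∀ l, (fun θ => Γ.fn (A.ent lam k l : A.CRing lam) θ *
      eval₂ σ (X θ) (A.fac l 0)) = fun θ => eval₂ σ (X θ) (A.fac l (k l).succ) := by
    intro l
    funext θ
    have h1 := congrFun (hau l 0) θ
    have h2 := congrFun (hau l (k l).succ) θ
    rw [← h1, ← h2]
    unfold Torus.fn
    rw [← map_mul]
    congr 1
    unfold Tower.ent
    rw [← Units.val_mul, div_mul_cancel]
  refine hclose k _ _ hs0 hgoodE (fun l θ => ?_) (fun l j θ => ?_)
  · change |Real.log ‖Γ.fn (A.ent lam k l : A.CRing lam) θ‖ / s -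
      (mrow q N (μ (some ⟨l, (k l).succ⟩)) 0 - mrow q N (μ (some ⟨l, 0⟩)) 0)| < δ k
    have h1 := (hest l (k l).succ θ).1
    have h2 := (hest l 0 θ).1
    have h3 : Real.log ‖Γ.fn (A.ent lam k l : A.CRing lam) θ * eval₂ σ (X θ) (A.fac l 0)‖ =
        Real.log ‖eval₂ σ (X θ) (A.fac l (k l).succ)‖ :=
      congrArg (fun z : ℂ => Real.log ‖z‖) (congrFun (hmul l) θ)
    rw [norm_mul, Real.log_mul (norm_ne_zero_iff.2 ((hgoodE l).ne_zero θ))
      (norm_ne_zero_iff.2 ((hgoodL _ _).ne_zero θ))] at h3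
    have h4 : Real.log ‖Γ.fn (A.ent lam k l : A.CRing lam) θ‖ =
        Real.log ‖eval₂ σ (X θ) (A.fac l (k l).succ)‖ -
        Real.log ‖eval₂ σ (X θ) (A.fac l 0)‖ := by
      linarith
    rw [h4, sub_div]
    refine lt_of_le_of_lt ?_ (hδle k)
    have h5 := abs_le.1 h1
    have h6 := abs_le.1 h2
    rw [abs_le]
    constructor <;> linarith [h5.1, h5.2, h6.1, h6.2]
  · change ‖lw (Γ.fn (A.ent lam k l : A.CRing lam)) j θ - 2 * Real.pi * Complex.I *
        ((mrow q N (μ (some ⟨l, (k l).succ⟩)) j.succ - mrow q N (μ (some ⟨l, 0⟩)) j.succ : ℝ) :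
          ℂ)‖ < δ k
    have h1 := (hest l (k l).succ θ).2 j
    have h2 := (hest l 0 θ).2 j
    have h3 := lw_mul (hgoodE l) (hgoodL l 0) j θ
    rw [hmul l] at h3
    have h4 : lw (Γ.fn (A.ent lam k l : A.CRing lam)) j θ =
        lw (fun θ => eval₂ σ (X θ) (A.fac l (k l).succ)) j θ -
        lw (fun θ => eval₂ σ (X θ) (A.fac l 0)) j θ := by
      rw [eq_sub_iff_add_eq]
      exact h3.symm
    refine lt_of_le_of_lt ?_ (hδle k)
    rw [h4]
    have h5 : lw (fun θ => eval₂ σ (X θ) (A.fac l (k l).succ)) j θ -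
        lw (fun θ => eval₂ σ (X θ) (A.fac l 0)) j θ - 2 * Real.pi * Complex.I *
        ((mrow q N (μ (some ⟨l, (k l).succ⟩)) j.succ - mrow q N (μ (some ⟨l, 0⟩)) j.succ : ℝ) :
          ℂ) =
        (lw (fun θ => eval₂ σ (X θ) (A.fac l (k l).succ)) j θ - 2 * Real.pi * Complex.I *
          mrow q N (μ (some ⟨l, (k l).succ⟩)) j.succ) -
        (lw (fun θ => eval₂ σ (X θ) (A.fac l 0)) j θ - 2 * Real.pi * Complex.I *
          mrow q N (μ (some ⟨l, 0⟩)) j.succ) := by
      push_cast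
      ring
    rw [h5]
    refine (norm_sub_le _ _).trans ?_
    linarith

end main

end Pool.Agent.Y797.TW
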