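import Pool.Agent.Y797.TW.Def
import Pool.Agent.TH826.MH.Ring
set_option autoImplicit false

/-!
The symbols are unramified at all discrete valuations.
-/

namespace Pool.Agent.Y797.TW

open Pool.Agent.TH826.MK

open MvPolynomial

open scoped WithZero

section val

variable {K L : Type*} [Field K] [Field L] {ι : Type*} (F : MvPolynomial ι K →+* L)
  (v : Valuation L ℤᵐ⁰)

/-- integral polynomials in integral elements -/
theorem val_le_one {p : MvPolynomial ι K} (hp : ∀ m, IsIntegral ℤ (p.coeff m))
    (hx : ∀ l ∈ p.vars, v (F (X l)) ≤ 1) : v (F p) ≤ 1 := by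
  classical
  rw [p.as_sum, map_sum]
  refine Valuation.map_sum_le _ fun m hm => ?_
  rw [MvPolynomial.monomial_eq, map_mul, map_mul]
  refine mul_le_one' ?_ ?_
  · exact val_le_one_of_integral v
      (map_isIntegral_int (F.comp (C : K →+* MvPolynomial ι K)) (hp m))
  · unfold Finsupp.prod
    rw [map_prod, map_prod]
    refine Finset.prod_le_one' fun l hl => ?_
    rw [map_pow, map_pow]
    exact pow_le_one' (hx l ((mem_vars l).2 ⟨m, hm, hl⟩)) _

end val

variable {K : Type*} [Field K] {n : ℕ} {A : Tower K n} {lam : K} {L : Type*} [Field L]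
  (f : A.CRing lam →+* L)

theorem map_ent (k : ∀ j, Fin (A.r j)) (j : Fin (n + 1)) :
    ((Units.map (f : A.CRing lam →* L) (A.ent lam k j) : Lˣ) : L) =
      f (A.mkC lam (A.fac j (k j).succ)) / f (A.mkC lam (A.fac j 0)) := by
  have h : A.ent lam k j = A.unit lam j (k j).succ / A.unit lam j 0 := rfl
  rw [h, map_div, Units.val_div_eq_div_val]
  rfl

theorem fac_ne_zero (j : Fin (n + 1)) (i : Fin (A.r j + 1)) : f (A.mkC lam (A.fac j i)) ≠ 0 :=
  ((A.isUnit_fac lam j i).map f).ne_zero

theorem symb_mem_unitPart (hG : A.Graphs) (hI : A.Integral) (hlam : IsIntegral ℤ lam)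
    (v : Valuation L ℤᵐ⁰) (k : ∀ j, Fin (A.r j)) :
    symb (fun j => Units.map (f : A.CRing lam →* L) (A.ent lam k j)) ∈ unitPart v (n + 1) := by
  classical
  set F : MvPolynomial (Fin (n + 1)) K →+* L := f.comp (A.mkC lam) with hF
  by_cases hB : ∃ j, 1 < v (F (X j))
  · -- the last one
    have hne : (Finset.univ.filter fun j : Fin (n + 1) => 1 < v (F (X j))).Nonempty := by
      obtain ⟨j, hj⟩ := hB
      exact ⟨j, Finset.mem_filter.2 ⟨Finset.mem_univ _, hj⟩⟩
    set j := (Finset.univ.filter fun j : Fin (n + 1) => 1 < v (F (X j))).max' hne with hjdef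
    have hj : 1 < v (F (X j)) := (Finset.mem_filter.1 (Finset.max'_mem _ hne)).2
    have hlt : ∀ l, j < l → v (F (X l)) ≤ 1 := by
      intro l hl
      by_contra hcon
      refine absurd (Finset.le_max' _ l (Finset.mem_filter.2 ⟨Finset.mem_univ _, ?_⟩))
        (not_le.2 hl)
      exact not_le.1 hcon
    have hphi : ∀ i, v (F (A.phi j i)) ≤ 1 := fun i =>
      val_le_one F v (hI.1 j i) fun l hl => hlt l (hG.1 j i l hl)
    refine mem_unitPart_of_oneUnit' v j _ ?_
    rw [map_ent]
    have e1 : ∀ i, f (A.mkC lam (A.fac j i)) = F (X j) - F (A.phi j i) := fun i => by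
      rw [← map_sub]
      rfl
    rw [div_sub_one (fac_ne_zero f j 0), map_div₀, e1, e1]
    have h1 : v (F (X j) - F (A.phi j 0)) = v (F (X j)) :=
      Valuation.map_sub_eq_of_lt_left v ((hphi 0).trans_lt hj)
    have h2 : v (F (X j) - F (A.phi j (k j).succ) - (F (X j) - F (A.phi j 0))) ≤ 1 := by
      have e : F (X j) - F (A.phi j (k j).succ) - (F (X j) - F (A.phi j 0)) =
        F (A.phi j 0) - F (A.phi j (k j).succ) := by ring
      rw [e]
      exact (v.map_sub _ _).trans (max_le (hphi _) (hphi _))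
    rw [h1]
    have h3 : 0 < v (F (X j)) := zero_lt_one.trans hj
    rw [div_lt_one₀ h3]
    exact h2.trans_lt hj
  · push Not at hB
    have hphi : ∀ j i, v (F (A.phi j i)) ≤ 1 := fun j i =>
      val_le_one F v (hI.1 j i) fun l _ => hB l
    have hg : v (F A.g) ≤ 1 := val_le_one F v hI.2 fun l _ => hB l
    have hsub : ∀ j i, v (F (A.fac j i)) ≤ 1 := fun j i => by
      unfold Tower.fac
      rw [map_sub]
      exact (v.map_sub _ _).trans (max_le (hB j) (hphi j i))
    have hlam' : v (F (C lam)) ≤ 1 :=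
      val_le_one_of_integral v (map_isIntegral_int (F.comp (C : K →+* _)) hlam)
    have hone := congrArg v (A.prod_of_hom lam F (by
      rw [hF, RingHom.comp_apply, A.mkC_eqn, map_zero]))
    rw [map_mul, map_mul, map_one, map_prod] at hone
    have hC : ∀ j i, v (F (A.fac j i)) = 1 := by
      intro j i
      refine le_antisymm (hsub j i) ?_
      rw [← hone]
      rw [← Finset.mul_prod_erase _ _ (Finset.mem_univ j), map_prod,
        ← Finset.mul_prod_erase _ _ (Finset.mem_univ i)]
      have h1 : ∏ x ∈ Finset.univ.erase i, v (F (A.fac j x)) ≤ 1 :=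
        Finset.prod_le_one' fun i _ => hsub j i
      have h2 : ∏ x ∈ Finset.univ.erase j, v (∏ i, F (A.fac x i)) ≤ 1 := by
        refine Finset.prod_le_one' fun k _ => ?_
        rw [map_prod]
        exact Finset.prod_le_one' fun i _ => hsub k i
      calc v (F (C lam)) * (v (F A.g) * (v (F (A.fac j i)) *
            (∏ x ∈ Finset.univ.erase i, v (F (A.fac j x))) *
            ∏ x ∈ Finset.univ.erase j, v (∏ i, F (A.fac x i))))
          ≤ 1 * (1 * (v (F (A.fac j i)) * 1 * 1)) :=
            mul_le_mul' hlam' (mul_le_mul' hg (mul_le_mul' (mul_le_mul' le_rfl h1) h2))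
        _ = v (F (A.fac j i)) := by rw [one_mul, one_mul, mul_one, mul_one]
    refine Submodule.subset_span ⟨_, fun l => ?_, rfl⟩
    rw [map_ent, map_div₀]
    have h1 := hC l (k l).succ
    have h2 := hC l 0
    rw [hF, RingHom.comp_apply] at h1 h2
    rw [h1, h2, div_one]

theorem symb_mem_unramified (hG : A.Graphs) (hI : A.Integral) (hlam : IsIntegral ℤ lam)
    (k : ∀ j, Fin (A.r j)) : KQ.map (n + 1) f (symb (A.ent lam k)) ∈ Unramified L (n + 1) := by
  rw [KQ.map_symb]
  unfold Unramified
  simp only [Submodule.mem_iInf]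
  intro v _
  exact symb_mem_unitPart f hG hI hlam v k

end Pool.Agent.Y797.TW
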